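import Pool.Agent.Q231.SG.Size

/-!
MP_3b7dc8_lc, Q1: disproof, with five players and for every rational `ε` in `(0, 1/2]`.
-/

namespace Pool.Agent.Results.MP_3b7dc8_lc.SuccinctNashFails

open Q231.SG

/-- For every rational `ε` with `0 < ε ≤ 1/2` and every polynomial `p` there is a five-player
instance `(G, x, y, ε)` that has a stationary `ε`-Nash equilibrium satisfying the payoff
constraints (even one whose probabilities are all dyadic), while every stationary `ε`-Nash
equilibrium satisfying the constraints has fixed-point size larger than `p` of the input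
size.  In particular no polynomial `p` has the property asked for. -/
theorem result :
    (∀ ε : ℚ, 0 < ε → ε ≤ 1 / 2 → ∀ p : Polynomial ℕ,
      ∃ (V : Type) (_ : Fintype V) (G : Game V 5) (x y : Fin 5 → ℚ),
        (∃ σ, IsStationary G σ ∧ IsNash G ε σ ∧ Satisfies G x y σ ∧ ∃ L, FixedPoint G L σ) ∧
        ∀ σ, IsStationary G σ → IsNash G ε σ → Satisfies G x y σ →
          ∀ L, FixedPoint G L σ → p.eval (inputSize G x y ε) < L) ∧
    ¬ ∃ p : Polynomial ℕ, ∀ (V : Type) (_ : Fintype V) (k : ℕ) (G : Game V k)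
        (x y : Fin k → ℚ) (ε : ℚ), 0 < ε →
        (∃ σ, IsStationary G σ ∧ IsNash G ε σ ∧ Satisfies G x y σ) →
        ∃ σ, IsStationary G σ ∧ IsNash G ε σ ∧ Satisfies G x y σ ∧
          ∃ L ≤ p.eval (inputSize G x y ε), FixedPoint G L σ := by
  have main : ∀ ε : ℚ, 0 < ε → ε ≤ 1 / 2 → ∀ p : Polynomial ℕ,
      ∃ (V : Type) (_ : Fintype V) (G : Game V 5) (x y : Fin 5 → ℚ),
        (∃ σ, IsStationary G σ ∧ IsNash G ε σ ∧ Satisfies G x y σ ∧ ∃ L, FixedPoint G L σ) ∧
        ∀ σ, IsStationary G σ → IsNash G ε σ → Satisfies G x y σ →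
          ∀ L, FixedPoint G L σ → p.eval (inputSize G x y ε) < L := by
    intro ε hε0 hε1 p
    have h0 : 0 ≤ 1 / 2 - ε := by linarith
    have h1 : 1 / 2 - ε ≤ 1 := by linarith
    obtain ⟨N, hN⟩ := growth p (Kc (1 / 2 - ε) ε * 144)
    have hsum : (((1 / 2 - ε : ℚ) : ℝ)) + (ε : ℝ) = 1 / 2 := by push_cast; ring
    refine ⟨Vx (N + 1), inferInstance, gm (N + 1) (1 / 2 - ε) h0 h1, xs, ys,
      ⟨sig, sig_stat, sig_nash ε (by exact_mod_cast hε0.le) hsum, sig_sat,
        ex (N + 1), sig_fixed (N + 1)⟩, ?_⟩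
    intro σ hσ hNash hsat L hL
    have hv : 1 ≤ value (gm (N + 1) (1 / 2 - ε) h0 h1) σ 0 := by
      have := (hsat 0).1
      simpa [xs] using this
    have h2 := lower_bound N σ hσ ε hNash hsum.le hv L hL
    have h3 := hN _ (size_le' N (1 / 2 - ε) h0 h1 ε)
    omega
  refine ⟨main, ?_⟩
  rintro ⟨p, hp⟩
  obtain ⟨V, hV, G, x, y, ⟨σ, h1, h2, h3, -⟩, hall⟩ := main (1 / 2) (by norm_num) le_rfl p
  obtain ⟨σ', g1, g2, g3, L, hL, g4⟩ := hp V hV 5 G x y (1 / 2) (by norm_num) ⟨σ, h1, h2, h3⟩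
  have := hall σ' g1 g2 g3 L g4
  omega

end Pool.Agent.Results.MP_3b7dc8_lc.SuccinctNashFails
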